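import Pool.Agent.Helper58.CP.Stmts

/-!
# The level set inequality
-/

namespace QD25

open CP Finset Classical

/-- indicator of `t < x` -/
noncomputable def chi (x t : ℝ) : ℝ := if t < x then 1 else 0

theorem chi_antitone (x : ℝ) : Antitone (chi x) := by
  intro s t hst
  unfold chi
  by_cases h1 : t < x
  · rw [if_pos h1, if_pos (lt_of_le_of_lt hst h1)]
  · rw [if_neg h1]
    split_ifs <;> norm_num

theorem chi_intble (x M : ℝ) : IntervalIntegrable (chi x) MeasureTheory.volume 0 M :=
  (chi_antitone x).intervalIntegrable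

theorem chi_int (x M : ℝ) (hM : 0 ≤ M) (hx : x ≤ M) : ∫ t in (0:ℝ)..M, chi x t = max x 0 := by
  rw [intervalIntegral.integral_of_le hM]
  have h1 : chi x = (Set.Iio x).indicator 1 := by
    funext t
    unfold chi
    rw [Set.indicator_apply]
    simp only [Set.mem_Iio, Pi.one_apply]
  rw [h1, MeasureTheory.integral_indicator_one measurableSet_Iio,
    MeasureTheory.measureReal_restrict_apply measurableSet_Iio]
  have h2 : Set.Iio x ∩ Set.Ioc 0 M = Set.Ioo 0 x := by
    ext t
    simp only [Set.mem_inter_iff, Set.mem_Iio, Set.mem_Ioc, Set.mem_Ioo]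
    constructor
    · rintro ⟨h3, h4, _⟩; exact ⟨h4, h3⟩
    · rintro ⟨h3, h4⟩; exact ⟨h4, h3, by linarith⟩
  rw [h2, Real.volume_real_Ioo, sub_zero]

theorem max_sub_max (x : ℝ) : max x 0 - max (-x) 0 = x := by
  rcases le_total x 0 with h | h
  · rw [max_eq_right h, max_eq_left (by linarith)]; ring
  · rw [max_eq_left h, max_eq_right (by linarith)]; ring

theorem dif_int (x M : ℝ) (hM : 0 ≤ M) (h1 : x ≤ M) (h2 : -x ≤ M) :
    ∫ t in (0:ℝ)..M, (chi x t - chi (-x) t) = x := by
  rw [intervalIntegral.integral_sub (chi_intble _ _) (chi_intble _ _), chi_int x M hM h1,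
    chi_int (-x) M hM h2, max_sub_max]

theorem sum_int {ι : Type} [Fintype ι] (x : ι → ℝ) (M : ℝ) (hM : 0 ≤ M) (h : ∀ i, |x i| ≤ M) :
    IntervalIntegrable (fun t => ∑ i, (chi (x i) t - chi (-(x i)) t)) MeasureTheory.volume 0 M ∧
    ∫ t in (0:ℝ)..M, ∑ i, (chi (x i) t - chi (-(x i)) t) = ∑ i, x i := by
  have h0 : ∀ i, IntervalIntegrable (fun t => chi (x i) t - chi (-(x i)) t) MeasureTheory.volume 0 M :=
    fun i => (chi_intble _ _).sub (chi_intble _ _)
  constructor
  · have := IntervalIntegrable.sum Finset.univ (f := fun i t => chi (x i) t - chi (-(x i)) t)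
      (μ := MeasureTheory.volume) (a := 0) (b := M) (fun i _ => h0 i)
    have h3 : (∑ i, fun t => chi (x i) t - chi (-(x i)) t) =
        fun t => ∑ i, (chi (x i) t - chi (-(x i)) t) := by
      funext t
      rw [Finset.sum_apply]
    rw [← h3]
    exact this
  · rw [intervalIntegral.integral_finset_sum (fun i _ => h0 i)]
    apply Finset.sum_congr rfl
    intro i _
    exact dif_int (x i) M hM (le_trans (le_abs_self _) (h i)) (le_trans (neg_le_abs _) (h i))

theorem sum_chi {ι : Type} [Fintype ι] (x : ι → ℝ) (t : ℝ) :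
    ∑ i, chi (x i) t = ((Finset.univ.filter (fun i => t < x i)).card : ℝ) := by
  unfold chi
  rw [Finset.sum_boole]

variable {D V F : Type} [Fintype D] [Fintype V] [Fintype F]

theorem lev_pt (h : ST_P0V) (m : LM D V F) (o : D) (hT : m.Tri) (u : V → ℝ)
    (hu : ∀ v, m.outer o v → u v = 0) (v0 : V) (t : ℝ) (ht : 0 ≤ t) :
    3 * chi |u v0| t ≤ 6 * ∑ v, (chi (u v) t - chi (-(u v)) t) -
      ∑ d, (chi (min (u (m.vt d)) (min (u (m.v1 d)) (u (m.v2 d)))) t -
        chi (-(min (u (m.vt d)) (min (u (m.v1 d)) (u (m.v2 d))))) t) := by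
  rw [Finset.sum_sub_distrib, Finset.sum_sub_distrib, sum_chi, sum_chi, sum_chi, sum_chi]
  set A : Finset V := Finset.univ.filter (fun v => t < u v) with hA
  set B : Finset V := Finset.univ.filter (fun v => t < -(u v)) with hB
  have hAo : ∀ v ∈ A, ¬ m.outer o v := by
    intro v hv ho
    have h1 : t < u v := by simpa [hA] using hv
    rw [hu v ho] at h1
    linarith
  have hBo : ∀ v ∈ B, ¬ m.outer o v := by
    intro v hv ho
    have h1 : t < -(u v) := by simpa [hB] using hv
    rw [hu v ho] at h1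
    linarith
  have hcA : (Finset.univ.filter (fun d => t < min (u (m.vt d)) (min (u (m.v1 d)) (u (m.v2 d))))) =
      Finset.univ.filter (fun d => m.vt d ∈ A ∧ m.v1 d ∈ A ∧ m.v2 d ∈ A) := by
    ext d
    simp only [hA, Finset.mem_filter, Finset.mem_univ, true_and, lt_min_iff]
  have hcB : (Finset.univ.filter (fun d => t < -(min (u (m.vt d)) (min (u (m.v1 d)) (u (m.v2 d)))))) =
      Finset.univ.filter (fun d => m.vt d ∈ B ∨ m.v1 d ∈ B ∨ m.v2 d ∈ B) := by
    ext d
    simp only [hB, Finset.mem_filter, Finset.mem_univ, true_and]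
    constructor
    · intro h1
      have h2 : min (u (m.vt d)) (min (u (m.v1 d)) (u (m.v2 d))) < -t := by linarith
      rcases min_lt_iff.mp h2 with h3 | h3
      · left; linarith
      · rcases min_lt_iff.mp h3 with h4 | h4
        · right; left; linarith
        · right; right; linarith
    · intro h1
      have h2 : min (u (m.vt d)) (min (u (m.v1 d)) (u (m.v2 d))) < -t := by
        rw [min_lt_iff, min_lt_iff]
        rcases h1 with h1 | h1 | h1
        · left; linarith
        · right; left; linarith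
        · right; right; linarith
      linarith
  rw [hcA, hcB]
  have eA : (A.Nonempty → (((Finset.univ.filter
      (fun d => m.vt d ∈ A ∧ m.v1 d ∈ A ∧ m.v2 d ∈ A)).card : ℝ) + 3 ≤ 6 * (A.card : ℝ))) ∧
      (¬ A.Nonempty → (((Finset.univ.filter
      (fun d => m.vt d ∈ A ∧ m.v1 d ∈ A ∧ m.v2 d ∈ A)).card : ℝ) ≤ 6 * (A.card : ℝ))) := by
    constructor
    · intro hne
      exact_mod_cast (h D V F m o hT A hne hAo).2
    · intro hne
      have : A = ∅ := Finset.not_nonempty_iff_eq_empty.mp hne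
      rw [this]
      simp
  have eB : (B.Nonempty → (6 * (B.card : ℝ) + 3 ≤ ((Finset.univ.filter
      (fun d => m.vt d ∈ B ∨ m.v1 d ∈ B ∨ m.v2 d ∈ B)).card : ℝ))) ∧
      (¬ B.Nonempty → (6 * (B.card : ℝ) ≤ ((Finset.univ.filter
      (fun d => m.vt d ∈ B ∨ m.v1 d ∈ B ∨ m.v2 d ∈ B)).card : ℝ))) := by
    constructor
    · intro hne
      exact_mod_cast (h D V F m o hT B hne hBo).1
    · intro hne
      have : B = ∅ := Finset.not_nonempty_iff_eq_empty.mp hne
      rw [this]
      simp
  by_cases hv : t < |u v0|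
  · have hv1 : chi |u v0| t = 1 := if_pos hv
    rw [hv1]
    rcases lt_abs.mp hv with h1 | h1
    · have hne : A.Nonempty := ⟨v0, by simp [hA, h1]⟩
      have g1 := eA.1 hne
      by_cases hB2 : B.Nonempty
      · have g2 := eB.1 hB2
        linarith
      · have g2 := eB.2 hB2
        linarith
    · have hne : B.Nonempty := ⟨v0, by simp [hB, h1]⟩
      have g1 := eB.1 hne
      by_cases hA2 : A.Nonempty
      · have g2 := eA.1 hA2
        linarith
      · have g2 := eA.2 hA2
        linarith
  · have hv1 : chi |u v0| t = 0 := if_neg hv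
    rw [hv1]
    have g1 : ((Finset.univ.filter
      (fun d => m.vt d ∈ A ∧ m.v1 d ∈ A ∧ m.v2 d ∈ A)).card : ℝ) ≤ 6 * (A.card : ℝ) := by
      by_cases hA2 : A.Nonempty
      · have := eA.1 hA2
        linarith
      · exact eA.2 hA2
    have g2 : 6 * (B.card : ℝ) ≤ ((Finset.univ.filter
      (fun d => m.vt d ∈ B ∨ m.v1 d ∈ B ∨ m.v2 d ∈ B)).card : ℝ) := by
      by_cases hB2 : B.Nonempty
      · have := eB.1 hB2
        linarith
      · exact eB.2 hB2
    linarith

theorem st_LEV (h : ST_P0V) : ST_LEV := by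
  intro D V F _ _ _ m o hT u hu v0
  set M : ℝ := ∑ v, |u v| with hMdef
  have hM : 0 ≤ M := Finset.sum_nonneg (fun v _ => abs_nonneg _)
  have hMv : ∀ v, |u v| ≤ M := fun v =>
    Finset.single_le_sum (f := fun v => |u v|) (fun v _ => abs_nonneg _) (Finset.mem_univ v)
  have hMd : ∀ d, |min (u (m.vt d)) (min (u (m.v1 d)) (u (m.v2 d)))| ≤ M := by
    intro d
    rw [abs_le]
    have a1 := abs_le.mp (hMv (m.vt d))
    have a2 := abs_le.mp (hMv (m.v1 d))
    have a3 := abs_le.mp (hMv (m.v2 d))
    constructor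
    · exact le_min a1.1 (le_min a2.1 a3.1)
    · exact le_trans (min_le_left _ _) a1.2
  obtain ⟨i1, e1⟩ := sum_int u M hM hMv
  obtain ⟨i2, e2⟩ := sum_int (fun d => min (u (m.vt d)) (min (u (m.v1 d)) (u (m.v2 d)))) M hM hMd
  have e3 := chi_int |u v0| M hM (hMv v0)
  have i3 := chi_intble |u v0| M
  have key := intervalIntegral.integral_mono_on hM (i3.const_mul 3) ((i1.const_mul 6).sub i2)
    (fun t ht => lev_pt h m o hT u hu v0 t ht.1)
  rw [intervalIntegral.integral_sub (i1.const_mul 6) i2, intervalIntegral.integral_const_mul,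
    intervalIntegral.integral_const_mul, e1, e2, e3, max_eq_left (abs_nonneg _)] at key
  exact key

end QD25
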