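import Pool.Agent.Helper58.CP.Stmts

/-!
# The basic inequality in the connected case
-/

namespace QD25

open CP Finset Classical

variable {D V F : Type} [Fintype D] [Fintype V] [Fintype F]

theorem fc_opp (m : LM D V F) (d : D) : m.fc (m.opp d) = m.fc (m.rot d) := by
  have h := m.fc_face (m.opp d)
  rw [m.opp_opp] at h
  exact h.symm

theorem fc_fc (m : LM D V F) (d : D) : m.fc (m.face d) = m.fc d := m.fc_face d

theorem vt_face (m : LM D V F) (d : D) : m.vt (m.face d) = m.vt (m.opp d) := m.vt_rot _

theorem face_ne (m : LM D V F) (hT : m.Tri) (d : D) : m.face d ≠ d := by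
  intro h
  have h1 := hT.noloop d
  rw [← vt_face, h] at h1
  exact h1 rfl

theorem face2_ne (m : LM D V F) (hT : m.Tri) (d : D) : m.face (m.face d) ≠ d := by
  intro h
  have h1 := hT.f3 d
  rw [h] at h1
  exact face_ne m hT d h1

theorem fib_card (m : LM D V F) (hT : m.Tri) (φ : F) :
    (Finset.univ.filter (fun d => m.fc d = φ)).card = 3 := by
  obtain ⟨d, hd⟩ := m.fc_surj φ
  have h1 : Finset.univ.filter (fun e => m.fc e = φ) = {d, m.face d, m.face (m.face d)} := by
    ext e
    simp only [Finset.mem_filter, Finset.mem_univ, true_and, Finset.mem_insert, Finset.mem_singleton]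
    constructor
    · intro he
      exact hT.fib d e (he.trans hd.symm)
    · rintro (h | h | h)
      · rw [h, hd]
      · rw [h, fc_fc, hd]
      · rw [h, fc_fc, fc_fc, hd]
  rw [h1]
  apply Finset.card_eq_three.mpr
  exact ⟨d, m.face d, m.face (m.face d), (face_ne m hT d).symm, (face2_ne m hT d).symm,
    (face_ne m hT (m.face d)).symm, rfl⟩

theorem fib_card_set (m : LM D V F) (hT : m.Tri) (S : Set F) :
    (Finset.univ.filter (fun d => m.fc d ∈ S)).card = 3 * Fintype.card S := by
  rw [Finset.card_eq_sum_card_fiberwise (f := m.fc) (t := Finset.univ.filter (fun φ => φ ∈ S))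
    (by intro d hd; simpa using hd)]
  rw [Finset.sum_congr rfl (g := fun _ => 3)]
  · rw [Finset.sum_const, smul_eq_mul, mul_comm]
    congr 1
    rw [Fintype.card_subtype]
  · intro φ hφ
    have hφ2 : φ ∈ S := by simpa using hφ
    rw [← fib_card m hT φ]
    congr 1
    ext d
    simp only [Finset.mem_filter, Finset.mem_univ, true_and]
    constructor
    · rintro ⟨_, h⟩; exact h
    · intro h; exact ⟨h ▸ hφ2, h⟩

/-- darts at `A` have their face in `meets` -/
theorem mem_meets (m : LM D V F) (A : Finset V) (d : D)
    (h : m.vt d ∈ A ∨ m.vt (m.opp d) ∈ A) : m.fc d ∈ meets m A := by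
  rcases h with h | h
  · exact ⟨d, rfl, h⟩
  · exact ⟨m.face d, fc_fc m d, by rw [vt_face]; exact h⟩

/-- the indicator in `ZMod 2` -/
noncomputable def ind (S : Set F) (φ : F) : ZMod 2 := if φ ∈ S then 1 else 0

theorem ind_add_eq_zero (S : Set F) (a b : F) (h : ind S a + ind S b = 0) (ha : a ∈ S) : b ∈ S := by
  by_contra hb
  rw [ind, ind, if_pos ha, if_neg hb] at h
  simp at h

theorem ind_add (S : Set F) (a b : F) (h : a ∈ S ↔ b ∈ S) : ind S a + ind S b = 0 := by
  have h1 : ind S a = ind S b := by
    unfold ind
    simp only [h]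
  rw [h1]
  exact CharTwo.add_self_eq_zero _

/-- the vertex sum of the coboundary of a set of faces vanishes -/
theorem ind_sum (m : LM D V F) (S : Set F) (a : V) :
    ∑ d with m.vt d = a, (ind S (m.fc d) + ind S (m.fc (m.opp d))) = 0 := by
  rw [Finset.sum_add_distrib]
  have h : ∑ d with m.vt d = a, ind S (m.fc (m.opp d)) = ∑ d with m.vt d = a, ind S (m.fc d) := by
    refine Finset.sum_bij (fun d _ => m.rot d) ?_ ?_ ?_ ?_
    · intro d hd
      have : m.vt d = a := by simpa using hd
      simp [m.vt_rot, this]
    · intro d _ e _ h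
      exact m.rot.injective h
    · intro e he
      have he2 : m.vt e = a := by simpa using he
      refine ⟨m.rot.symm e, ?_, by simp⟩
      have := m.vt_rot (m.rot.symm e)
      rw [Equiv.apply_symm_apply] at this
      simp [← this, he2]
    · intro d _
      rw [fc_opp]
  rw [h]
  exact CharTwo.add_self_eq_zero _

theorem st_P0C (h1 : ST_TREE) (h2 : ST_BD3) : ST_P0C := by
  intro D V F _ _ _ m hT A hA hU hconn
  set C : Finset D := Finset.univ.filter (fun d => m.vt d ∈ A ∨ m.vt (m.opp d) ∈ A) with hCdef
  have hCm : ∀ d, d ∈ C ↔ (m.vt d ∈ A ∨ m.vt (m.opp d) ∈ A) := by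
    intro d; simp [hCdef]
  have hCopp : ∀ d ∈ C, m.opp d ∈ C := by
    intro d hd
    rw [hCm, m.opp_opp]
    exact ((hCm d).mp hd).symm
  obtain ⟨a0, ha0⟩ := hA
  obtain ⟨d0, hd0⟩ := m.vt_surj a0
  have hd0A : m.vt d0 ∈ A := hd0 ▸ ha0
  -- a dart away from `A`
  have hout : ∃ e, m.vt e ∉ A := by
    by_contra hcon
    push Not at hcon
    apply hU
    ext φ
    simp only [Set.mem_univ, iff_true]
    obtain ⟨d, hd⟩ := m.fc_surj φ
    exact ⟨d, hd, hcon d⟩
  obtain ⟨e0, he0⟩ := hout
  -- first tree
  let ν1 : D → Option {v // v ∈ A} := fun d => if h : m.vt d ∈ A then some ⟨m.vt d, h⟩ else none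
  have hν1 : ∀ d, m.vt d ∉ A → ν1 d = none := fun d hd => dif_neg hd
  have hν1s : ∀ d (h : m.vt d ∈ A), ν1 d = some ⟨m.vt d, h⟩ := fun d hd => dif_pos hd
  have hν1r : ∀ d, ν1 (m.rot d) = ν1 d := by
    intro d
    simp only [ν1, m.vt_rot]
  obtain ⟨T1, hT1C, hT1o, hT1c, -, hT1k⟩ := h1 D (Option {v // v ∈ A}) m.opp ν1 C none m.opp_opp m.opp_ne
    hCopp (by
      intro S hS hcl
      have hS' : {d : D | ν1 d ∈ S} = Set.univ := by
        apply m.conn
        · exact ⟨e0, by simp only [Set.mem_setOf_eq, hν1 e0 he0]; exact hS⟩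
        · intro d hd
          simp only [Set.mem_setOf_eq, hν1r] at hd ⊢
          exact hd
        · intro d hd
          simp only [Set.mem_setOf_eq] at hd ⊢
          by_cases hdC : d ∈ C
          · exact hcl d hdC hd
          · have h3 : m.vt (m.opp d) ∉ A := fun hh => hdC ((hCm d).mpr (Or.inr hh))
            rw [hν1 _ h3]
            exact hS
      ext x
      simp only [Set.mem_univ, iff_true]
      cases x with
      | none => exact hS
      | some a =>
        obtain ⟨d, hd⟩ := m.vt_surj a.1
        have hdA : m.vt d ∈ A := hd ▸ a.2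
        have h4 : d ∈ {d : D | ν1 d ∈ S} := by rw [hS']; trivial
        simp only [Set.mem_setOf_eq] at h4
        rw [hν1s d hdA] at h4
        have h5 : (⟨m.vt d, hdA⟩ : {v // v ∈ A}) = a := Subtype.ext hd
        rw [h5] at h4
        exact h4)
  -- second tree
  have hr2 : m.fc d0 ∈ meets m A := mem_meets m A d0 (Or.inl hd0A)
  let r2 : meets m A := ⟨m.fc d0, hr2⟩
  let ν2 : D → meets m A := fun d => if h : m.fc d ∈ meets m A then ⟨m.fc d, h⟩ else r2
  have hν2 : ∀ d (h : m.fc d ∈ meets m A), ν2 d = ⟨m.fc d, h⟩ := fun d h => dif_pos h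
  obtain ⟨T2, hT2C, -, hT2c, -, -⟩ := h1 D (meets m A) m.opp ν2 (C \ T1) r2 m.opp_opp m.opp_ne
    (by
      intro d hd
      rw [Finset.mem_sdiff] at hd ⊢
      refine ⟨hCopp d hd.1, fun hh => hd.2 ?_⟩
      have := hT1o _ hh
      rw [m.opp_opp] at this
      exact this)
    (by
      intro S2 hS2 hcl
      set S : Set F := Subtype.val '' S2 with hSdef
      have hSm : ∀ φ (h : φ ∈ meets m A), (φ ∈ S ↔ (⟨φ, h⟩ : meets m A) ∈ S2) := by
        intro φ h
        constructor
        · rintro ⟨x, hx, rfl⟩
          exact hx
        · intro hx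
          exact ⟨_, hx, rfl⟩
      -- crossing the darts of `C \ T1`
      have hcr : ∀ d, d ∈ C → d ∉ T1 → m.fc d ∈ S → m.fc (m.opp d) ∈ S := by
        intro d hdC hdT hdS
        have g1 : m.fc d ∈ meets m A := mem_meets m A d ((hCm d).mp hdC)
        have g2 : m.fc (m.opp d) ∈ meets m A := mem_meets m A _ ((hCm _).mp (hCopp d hdC))
        rw [hSm _ g2, ← hν2 _ g2]
        apply hcl d (Finset.mem_sdiff.mpr ⟨hdC, hdT⟩)
        rw [hν2 _ g1, ← hSm _ g1]
        exact hdS
      have hcr2 : ∀ d, d ∈ C → d ∉ T1 → (m.fc d ∈ S ↔ m.fc (m.opp d) ∈ S) := by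
        intro d hdC hdT
        refine ⟨hcr d hdC hdT, fun h => ?_⟩
        have h3 := hcr (m.opp d) (hCopp d hdC) (fun hh => hdT (by
          have := hT1o _ hh
          rw [m.opp_opp] at this
          exact this)) h
        rw [m.opp_opp] at h3
        exact h3
      let f : D → ZMod 2 := fun d => if d ∈ C then ind S (m.fc d) + ind S (m.fc (m.opp d)) else 0
      have hf0 : ∀ d, f d = 0 := by
        apply hT1k (ZMod 2) f
        · intro d
          by_cases hd : d ∈ C
          · simp only [f, if_pos hd, if_pos (hCopp d hd), m.opp_opp]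
            rw [CharTwo.neg_eq, add_comm]
          · have hd2 : m.opp d ∉ C := fun hh => hd (by
              have := hCopp _ hh
              rw [m.opp_opp] at this
              exact this)
            simp only [f, if_neg hd, if_neg hd2, neg_zero]
        · intro d hd
          by_cases hdC : d ∈ C
          · simp only [f, if_pos hdC]
            exact ind_add S _ _ (hcr2 d hdC hd)
          · simp only [f, if_neg hdC]
        · intro n hn
          cases n with
          | none => exact absurd rfl hn
          | some a =>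
            rw [← ind_sum m S a.1]
            have hiff : ∀ d, ν1 d = some a ↔ m.vt d = a.1 := by
              intro d
              constructor
              · intro h
                by_cases hdA : m.vt d ∈ A
                · rw [hν1s d hdA] at h
                  have := Option.some.inj h
                  rw [← this]
                · rw [hν1 d hdA] at h
                  exact absurd h (by simp)
              · intro h
                have hdA : m.vt d ∈ A := h ▸ a.2
                rw [hν1s d hdA]
                congr 1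
                exact Subtype.ext h
            apply Finset.sum_congr
            · ext d
              simp only [Finset.mem_filter, Finset.mem_univ, true_and]
              exact hiff d
            · intro d hd
              have hd2 : m.vt d = a.1 := by simpa using hd
              have hdC : d ∈ C := (hCm d).mpr (Or.inl (hd2 ▸ a.2))
              simp only [f, if_pos hdC]
      have hSall : S = meets m A := by
        apply hconn
        · exact ⟨_, r2, hS2, rfl⟩
        · rintro φ ⟨x, _, rfl⟩
          exact x.2
        · intro d hd hdS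
          have hdC : d ∈ C := (hCm d).mpr hd
          have h3 := hf0 d
          simp only [f, if_pos hdC] at h3
          exact ind_add_eq_zero S _ _ h3 hdS
      ext x
      simp only [Set.mem_univ, iff_true]
      have h4 : x.1 ∈ S := by rw [hSall]; exact x.2
      exact (hSm x.1 x.2).mp h4)
  -- counting
  have hc1 : T1.card = 2 * A.card := by
    rw [Fintype.card_option, Fintype.card_coe] at hT1c
    omega
  have hX := fib_card_set m hT (meets m A)
  have hB := h2 D V F m hT (meets m A) ⟨_, hr2⟩ hU
  have hCc : T1.card + T2.card ≤ C.card := by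
    have g1 : Disjoint T1 T2 := by
      rw [Finset.disjoint_left]
      intro d hd1 hd2
      exact (Finset.mem_sdiff.mp (hT2C hd2)).2 hd1
    rw [← Finset.card_union_of_disjoint g1]
    apply Finset.card_le_card
    intro d hd
    rcases Finset.mem_union.mp hd with hd | hd
    · exact hT1C hd
    · exact (Finset.mem_sdiff.mp (hT2C hd)).1
  have hfin : C.card + (Finset.univ.filter (fun d => m.fc d ∈ meets m A ∧
      m.fc (m.opp d) ∉ meets m A)).card ≤ (Finset.univ.filter (fun d => m.fc d ∈ meets m A)).card := by
    have g1 : Disjoint C (Finset.univ.filter (fun d => m.fc d ∈ meets m A ∧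
        m.fc (m.opp d) ∉ meets m A)) := by
      rw [Finset.disjoint_left]
      intro d hd1 hd2
      have hd3 := (Finset.mem_filter.mp hd2).2.2
      exact hd3 (mem_meets m A _ ((hCm _).mp (hCopp d hd1)))
    rw [← Finset.card_union_of_disjoint g1]
    apply Finset.card_le_card
    intro d hd
    rcases Finset.mem_union.mp hd with hd | hd
    · exact Finset.mem_filter.mpr ⟨Finset.mem_univ _, mem_meets m A d ((hCm d).mp hd)⟩
    · exact Finset.mem_filter.mpr ⟨Finset.mem_univ _, (Finset.mem_filter.mp hd).2.1⟩
  have hX' : (Finset.univ.filter (fun d => m.fc d ∈ meets m A)).card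
      = 3 * Fintype.card (meets m A) := hX
  omega

end QD25
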