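import Pool.Agent.Helper58.CP.Stmts

/-!
# Spanning trees of multigraphs given by darts
-/

namespace QD25

open CP Finset Classical

variable {D N : Type} [Fintype D] [Fintype N]

/-- exactness of the tree -/
def EE (ι : D → D) (ν : D → N) (T : Finset D) : Prop :=
  ∀ (A : Type) [AddCommGroup A] (f : D → A), (∀ d ∈ T, f (ι d) = - f d) →
        ∃ g : N → A, ∀ d ∈ T, f d = g (ν (ι d)) - g (ν d)

/-- vanishing of the cycles of the tree -/
def KK (ι : D → D) (ν : D → N) (r : N) (T : Finset D) : Prop :=
  ∀ (A : Type) [AddCommGroup A] (h : D → A), (∀ d, h (ι d) = - h d) → (∀ d, d ∉ T → h d = 0) →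
        (∀ n, n ≠ r → ∑ d with ν d = n, h d = 0) → ∀ d, h d = 0

/-- a tree spanning the nodes in `S` -/
structure PT (ι : D → D) (ν : D → N) (C : Finset D) (r : N) (S : Finset N) (T : Finset D) : Prop where
  rS : r ∈ S
  TC : T ⊆ C
  inv : ∀ d ∈ T, ι d ∈ T
  nu : ∀ d ∈ T, ν d ∈ S
  card : T.card + 2 = 2 * S.card
  e : EE ι ν T
  k : KK ι ν r T

theorem pt_base (ι : D → D) (ν : D → N) (C : Finset D) (r : N) : PT ι ν C r {r} ∅ := by
  refine ⟨by simp, by simp, by simp, by simp, by simp, ?_, ?_⟩
  · intro A _ f _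
    exact ⟨fun _ => 0, fun d hd => absurd hd (by simp)⟩
  · intro A _ h _ h2 _ d
    exact h2 d (by simp)

theorem pt_step (ι : D → D) (ν : D → N) (C : Finset D) (r : N)
    (hι : ∀ d, ι (ι d) = d) (hne : ∀ d, ι d ≠ d) (hC : ∀ d ∈ C, ι d ∈ C)
    (hconn : ∀ S : Set N, r ∈ S → (∀ d ∈ C, ν d ∈ S → ν (ι d) ∈ S) → S = Set.univ)
    (S : Finset N) (T : Finset D) (h : PT ι ν C r S T) (hS : S ≠ Finset.univ) :
    ∃ S' T', PT ι ν C r S' T' ∧ S'.card = S.card + 1 := by
  have hex : ∃ d ∈ C, ν d ∈ S ∧ ν (ι d) ∉ S := by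
    by_contra hcon
    push Not at hcon
    have h1 := hconn (S : Set N) (by exact_mod_cast h.rS) (fun d hd hd2 => by
      have := hcon d hd (by exact_mod_cast hd2)
      exact_mod_cast this)
    exact hS (by
      apply Finset.eq_univ_of_forall
      intro x
      have : x ∈ (S : Set N) := by rw [h1]; trivial
      exact_mod_cast this)
  obtain ⟨d, hdC, hd1, hd2⟩ := hex
  have hdT : d ∉ T := by
    intro hdT
    exact hd2 (h.nu _ (h.inv _ hdT))
  have hdT2 : ι d ∉ T := by
    intro hdT2
    exact hd2 (h.nu _ hdT2)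
  have hnr : ν (ι d) ≠ r := fun hh => hd2 (hh ▸ h.rS)
  have hnd : ν d ≠ ν (ι d) := fun hh => hd2 (hh ▸ hd1)
  have hT' : ∀ e ∈ T, ν e ≠ ν (ι d) := fun e he hh => hd2 (hh ▸ h.nu e he)
  refine ⟨insert (ν (ι d)) S, insert d (insert (ι d) T), ⟨?_, ?_, ?_, ?_, ?_, ?_, ?_⟩, ?_⟩
  · exact Finset.mem_insert_of_mem h.rS
  · intro e he
    rcases Finset.mem_insert.mp he with he | he
    · rw [he]; exact hdC
    rcases Finset.mem_insert.mp he with he | he
    · rw [he]; exact hC _ hdC
    · exact h.TC he
  · intro e he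
    rcases Finset.mem_insert.mp he with he | he
    · rw [he]; simp
    rcases Finset.mem_insert.mp he with he | he
    · rw [he, hι]; simp
    · exact Finset.mem_insert_of_mem (Finset.mem_insert_of_mem (h.inv e he))
  · intro e he
    rcases Finset.mem_insert.mp he with he | he
    · rw [he]; exact Finset.mem_insert_of_mem hd1
    rcases Finset.mem_insert.mp he with he | he
    · rw [he]; simp
    · exact Finset.mem_insert_of_mem (h.nu e he)
  · have h1 : d ∉ insert (ι d) T := by
      intro hh
      rcases Finset.mem_insert.mp hh with hh | hh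
      · exact hne d hh.symm
      · exact hdT hh
    rw [Finset.card_insert_of_notMem h1, Finset.card_insert_of_notMem hdT2,
      Finset.card_insert_of_notMem hd2]
    have := h.card
    omega
  · intro A _ f hf
    obtain ⟨g, hg⟩ := h.e A f (fun e he => hf e (Finset.mem_insert_of_mem (Finset.mem_insert_of_mem he)))
    refine ⟨Function.update g (ν (ι d)) (g (ν d) + f d), ?_⟩
    intro e he
    rcases Finset.mem_insert.mp he with he | he
    · rw [he, Function.update_self, Function.update_of_ne hnd]
      abel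
    rcases Finset.mem_insert.mp he with he | he
    · rw [he, hι, Function.update_self, Function.update_of_ne hnd, hf d (Finset.mem_insert_self _ _)]
      abel
    · rw [Function.update_of_ne (hT' e he), Function.update_of_ne (hT' _ (h.inv e he))]
      exact hg e he
  · intro A _ f hf1 hf2 hf3
    have h0 : f (ι d) = 0 := by
      have h1 := hf3 _ hnr
      rw [Finset.sum_eq_single_of_mem (ι d) (by simp)] at h1
      · exact h1
      · intro e he hne2
        apply hf2
        intro hh
        have hee : ν e = ν (ι d) := by simpa using he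
        rcases Finset.mem_insert.mp hh with hh | hh
        · rw [hh] at hee; exact hnd hee
        rcases Finset.mem_insert.mp hh with hh | hh
        · exact hne2 hh
        · exact hT' e hh hee
    have h1 : f d = 0 := by
      have := hf1 (ι d)
      rw [hι, h0] at this
      simpa using this
    refine h.k A f hf1 ?_ hf3
    intro e he
    by_cases he1 : e = d
    · rw [he1]; exact h1
    by_cases he2 : e = ι d
    · rw [he2]; exact h0
    apply hf2
    simp [he1, he2, he]
  · exact Finset.card_insert_of_notMem hd2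

theorem pt_all (ι : D → D) (ν : D → N) (C : Finset D) (r : N)
    (hι : ∀ d, ι (ι d) = d) (hne : ∀ d, ι d ≠ d) (hC : ∀ d ∈ C, ι d ∈ C)
    (hconn : ∀ S : Set N, r ∈ S → (∀ d ∈ C, ν d ∈ S → ν (ι d) ∈ S) → S = Set.univ) :
    ∀ (k : ℕ) (S : Finset N) (T : Finset D), PT ι ν C r S T → Fintype.card N ≤ S.card + k →
      ∃ T', PT ι ν C r Finset.univ T' := by
  intro k
  induction k with
  | zero =>
    intro S T h hk
    have : S = Finset.univ := by
      apply (Finset.card_eq_iff_eq_univ S).mp
      have := Finset.card_le_univ S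
      omega
    exact ⟨T, this ▸ h⟩
  | succ k ih =>
    intro S T h hk
    by_cases hS : S = Finset.univ
    · exact ⟨T, hS ▸ h⟩
    · obtain ⟨S', T', h', hc⟩ := pt_step ι ν C r hι hne hC hconn S T h hS
      exact ih S' T' h' (by omega)

theorem st_TREE : ST_TREE := by
  intro D N _ _ ι ν C r hι hne hC hconn
  obtain ⟨T, hT⟩ := pt_all ι ν C r hι hne hC hconn (Fintype.card N) {r} ∅ (pt_base ι ν C r) (by simp)
  refine ⟨T, hT.TC, hT.inv, ?_, ?_, ?_⟩
  · rw [hT.card, Finset.card_univ]
  · intro A _ f hf
    exact hT.e A f hf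
  · intro A _ h h1 h2 h3
    exact hT.k A h h1 h2 h3

end QD25
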